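import Mathlib

/-!
The first Arens product on the bidual of a normed algebra and the Jacobson radical.
-/

set_option autoImplicit false

namespace Pool.Agent.H283Z

variable {A : Type*} [NonUnitalNormedRing A] [NormedSpace ℂ A] [IsScalarTower ℂ A A]
  [SMulCommClass ℂ A A]

/-- First step: `a ↦ f · a`, where `⟨f · a, b⟩ = ⟨f, a b⟩`. -/
noncomputable def dualMul (f : StrongDual ℂ A) : A →L[ℂ] StrongDual ℂ A :=
  (ContinuousLinearMap.compL ℂ A A ℂ f).comp (ContinuousLinearMap.mul ℂ A)

lemma dualMul_apply (f : StrongDual ℂ A) (a b : A) : dualMul f a b = f (a * b) := rfl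

lemma norm_dualMul_le (f : StrongDual ℂ A) : ‖dualMul f‖ ≤ ‖f‖ := by
  refine ContinuousLinearMap.opNorm_le_bound _ (norm_nonneg _) (fun a => ?_)
  refine ContinuousLinearMap.opNorm_le_bound _ (by positivity) (fun b => ?_)
  rw [dualMul_apply, mul_assoc]
  exact (f.le_opNorm _).trans (mul_le_mul_of_nonneg_left (norm_mul_le a b) (norm_nonneg _))

/-- Second step: `f ↦ Ψ · f`, where `⟨Ψ · f, a⟩ = ⟨Ψ, f · a⟩`. -/
noncomputable def bidualAct (Ψ : StrongDual ℂ (StrongDual ℂ A)) :
    StrongDual ℂ A →L[ℂ] StrongDual ℂ A :=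
  LinearMap.mkContinuous
    { toFun := fun f => Ψ.comp (dualMul f)
      map_add' := fun f g => by
        ext a
        exact Ψ.map_add (dualMul f a) (dualMul g a)
      map_smul' := fun c f => by
        ext a
        exact Ψ.map_smul c (dualMul f a) } ‖Ψ‖
    (fun f => (Ψ.opNorm_comp_le _).trans
      (mul_le_mul_of_nonneg_left (norm_dualMul_le f) (norm_nonneg _)))

lemma bidualAct_apply (Ψ : StrongDual ℂ (StrongDual ℂ A)) (f : StrongDual ℂ A) (a : A) :
    bidualAct Ψ f a = Ψ (dualMul f a) := rfl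

/-- Third step, the first Arens product: `⟨Φ □ Ψ, f⟩ = ⟨Φ, Ψ · f⟩`. -/
noncomputable def arens (Φ Ψ : StrongDual ℂ (StrongDual ℂ A)) : StrongDual ℂ (StrongDual ℂ A) :=
  Φ.comp (bidualAct Ψ)

lemma arens_apply (Φ Ψ : StrongDual ℂ (StrongDual ℂ A)) (f : StrongDual ℂ A) :
    arens Φ Ψ f = Φ (bidualAct Ψ f) := rfl

lemma bidualAct_arens (Φ Ψ : StrongDual ℂ (StrongDual ℂ A)) (f : StrongDual ℂ A) :
    bidualAct (arens Φ Ψ) f = bidualAct Φ (bidualAct Ψ f) := by
  ext a
  show Φ (bidualAct Ψ (dualMul f a)) = Φ (dualMul (bidualAct Ψ f) a)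
  congr 1
  ext b
  show Ψ (dualMul (dualMul f a) b) = Ψ (dualMul f (a * b))
  congr 1
  ext c
  show f (a * (b * c)) = f (a * b * c)
  rw [mul_assoc]

variable (A) in
/-- The bidual `A''`; its product, defined below, is the first Arens product. -/
def Bidual : Type _ := StrongDual ℂ (StrongDual ℂ A)

noncomputable instance : AddCommGroup (Bidual A) :=
  (inferInstance : AddCommGroup (StrongDual ℂ (StrongDual ℂ A)))

noncomputable instance : Module ℂ (Bidual A) :=
  (inferInstance : Module ℂ (StrongDual ℂ (StrongDual ℂ A)))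

/-- `(A'', □)` as a (not necessarily unital) ring. -/
noncomputable instance : NonUnitalRing (Bidual A) :=
  { (inferInstance : AddCommGroup (Bidual A)) with
    mul := fun Φ Ψ => arens Φ Ψ
    left_distrib := fun Φ Ψ Θ => ContinuousLinearMap.ext fun f =>
      ContinuousLinearMap.map_add (show StrongDual ℂ (StrongDual ℂ A) from Φ)
        (bidualAct Ψ f) (bidualAct Θ f)
    right_distrib := fun _ _ _ => rfl
    zero_mul := fun _ => rfl
    mul_zero := fun Φ => ContinuousLinearMap.ext fun _ =>
      ContinuousLinearMap.map_zero (show StrongDual ℂ (StrongDual ℂ A) from Φ)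
    mul_assoc := fun Φ Ψ Θ => ContinuousLinearMap.ext fun f =>
      congrArg (show StrongDual ℂ (StrongDual ℂ A) from Φ) (bidualAct_arens Ψ Θ f).symm }

instance : IsScalarTower ℂ (Bidual A) (Bidual A) := ⟨fun _ _ _ => rfl⟩

instance : SMulCommClass ℂ (Bidual A) (Bidual A) :=
  ⟨fun c Φ Ψ => ContinuousLinearMap.ext fun f =>
    (ContinuousLinearMap.map_smul (show StrongDual ℂ (StrongDual ℂ A) from Φ) c
      (bidualAct Ψ f)).symm⟩

/-- The Jacobson radical of a complex algebra `B` with or without identity: the elements of `B`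
lying in the Jacobson radical (intersection of all maximal left ideals) of the unitization
`B^# = ℂ ⊕ B`. -/
def rad (B : Type*) [NonUnitalRing B] [Module ℂ B] [IsScalarTower ℂ B B] [SMulCommClass ℂ B B] :
    Set B :=
  {x | (x : Unitization ℂ B) ∈ Ring.jacobson (Unitization ℂ B)}

end Pool.Agent.H283Z
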