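import Pool.Agent.H283Z.Arens

/-!
The Beurling algebra `L¹(G, ω)` of a locally compact group with a continuous weight.
-/

set_option autoImplicit false
set_option linter.unusedSectionVars false

namespace Pool.Agent.H283Z

open MeasureTheory Filter Topology Set
open scoped ENNReal

/-- A weight on a topological group: continuous, positive, submultiplicative, `ω(e) = 1`. -/
structure Weight (G : Type*) [Group G] [TopologicalSpace G] where
  toFun : G → ℝ
  continuous : Continuous toFun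
  pos : ∀ s, 0 < toFun s
  submul : ∀ s t, toFun (s * t) ≤ toFun s * toFun t
  map_one : toFun 1 = 1

/-- The trivial weight `ω = 1`. -/
def Weight.one (G : Type*) [Group G] [TopologicalSpace G] : Weight G where
  toFun := fun _ => 1
  continuous := continuous_const
  pos := fun _ => one_pos
  submul := fun _ _ => by simp
  map_one := rfl

variable {G : Type*} [Group G] [TopologicalSpace G] [IsTopologicalGroup G]
  [LocallyCompactSpace G] [T2Space G] [MeasurableSpace G] [BorelSpace G]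
  (μ : Measure G) [μ.IsHaarMeasure] [μ.Regular] (ω : Weight G)

/-- The measure `ω dμ`. -/
noncomputable def wm : Measure G := μ.withDensity (fun x => ENNReal.ofReal (ω.toFun x))

lemma meas_w : Measurable (fun x => ENNReal.ofReal (ω.toFun x)) :=
  ω.continuous.measurable.ennreal_ofReal

lemma ae_wm : ae (wm μ ω) = ae μ := by
  refine le_antisymm (withDensity_absolutelyContinuous μ _).ae_le
    (withDensity_absolutelyContinuous' (meas_w ω).aemeasurable ?_).ae_le
  exact Eventually.of_forall fun x => (ENNReal.ofReal_pos.2 (ω.pos x)).ne'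

lemma integrable_wm {E : Type*} [NormedAddCommGroup E] [NormedSpace ℝ E] {f : G → E} :
    Integrable f (wm μ ω) ↔ Integrable (fun x => ω.toFun x • f x) μ := by
  rw [wm, integrable_withDensity_iff_integrable_smul' (meas_w ω)
    (Eventually.of_forall fun x => ENNReal.ofReal_lt_top)]
  simp only [ENNReal.toReal_ofReal (ω.pos _).le]

lemma integral_wm {E : Type*} [NormedAddCommGroup E] [NormedSpace ℝ E] (f : G → E) :
    ∫ x, f x ∂(wm μ ω) = ∫ x, ω.toFun x • f x ∂μ := by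
  rw [wm, integral_withDensity_eq_integral_toReal_smul (meas_w ω)
    (Eventually.of_forall fun x => ENNReal.ofReal_lt_top)]
  simp only [ENNReal.toReal_ofReal (ω.pos _).le]

lemma integrable_w (f : Lp ℂ 1 (wm μ ω)) : Integrable (fun x => ω.toFun x • f x) μ :=
  (integrable_wm μ ω).1 (L1.integrable_coeFn f)

lemma norm_w (f : Lp ℂ 1 (wm μ ω)) : ‖f‖ = ∫ x, ω.toFun x * ‖f x‖ ∂μ := by
  rw [L1.norm_eq_integral_norm, integral_wm]
  rfl

lemma w_le (x y : G) : ω.toFun y ≤ ω.toFun x * ω.toFun (x⁻¹ * y) := by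
  simpa using ω.submul x (x⁻¹ * y)

lemma integrable_lt (x : G) (f : Lp ℂ 1 (wm μ ω)) :
    Integrable (fun y => f (x⁻¹ * y)) (wm μ ω) := by
  rw [integrable_wm]
  refine Integrable.mono' (((integrable_w μ ω f).comp_mul_left x⁻¹).norm.const_mul (ω.toFun x))
    (ω.continuous.measurable.aestronglyMeasurable.smul
      ((Lp.stronglyMeasurable f).comp_measurable (measurable_const_mul x⁻¹)).aestronglyMeasurable)
    (Eventually.of_forall fun y => ?_)
  rw [norm_smul, norm_smul, Real.norm_of_nonneg (ω.pos _).le, Real.norm_of_nonneg (ω.pos _).le,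
    ← mul_assoc]
  exact mul_le_mul_of_nonneg_right (w_le ω x y) (norm_nonneg _)

/-- Left translation on `L¹(G, ω)`: `(L_x f)(y) = f (x⁻¹ y)`. -/
noncomputable def lt (x : G) (f : Lp ℂ 1 (wm μ ω)) : Lp ℂ 1 (wm μ ω) :=
  (integrable_lt μ ω x f).toL1 (fun y => f (x⁻¹ * y))

/-- Convolution: `f * g = ∫ f(y) L_y g dμ(y)`, a Bochner integral in `L¹(G, ω)`. -/
noncomputable def conv (f g : Lp ℂ 1 (wm μ ω)) : Lp ℂ 1 (wm μ ω) :=
  ∫ y, (f y) • lt μ ω y g ∂μ

lemma lt_ae (x : G) (f : Lp ℂ 1 (wm μ ω)) : lt μ ω x f =ᵐ[μ] fun y => f (x⁻¹ * y) := by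
  rw [← ae_wm μ ω]
  exact Integrable.coeFn_toL1 _

lemma ext_w {f g : Lp ℂ 1 (wm μ ω)} (h : f =ᵐ[μ] g) : f = g := by
  apply Lp.ext
  rwa [ae_wm]

lemma ae_comp (x : G) {p : G → Prop} (h : ∀ᵐ y ∂μ, p y) : ∀ᵐ y ∂μ, p (x * y) :=
  (measurePreserving_mul_left μ x).quasiMeasurePreserving.ae h

lemma coe_add (f g : Lp ℂ 1 (wm μ ω)) : ∀ᵐ y ∂μ, (f + g) y = f y + g y := by
  rw [← ae_wm μ ω]
  exact Lp.coeFn_add f g

lemma coe_sub (f g : Lp ℂ 1 (wm μ ω)) : ∀ᵐ y ∂μ, (f - g) y = f y - g y := by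
  rw [← ae_wm μ ω]
  exact Lp.coeFn_sub f g

lemma coe_smul (c : ℂ) (f : Lp ℂ 1 (wm μ ω)) : ∀ᵐ y ∂μ, (c • f) y = c * f y := by
  rw [← ae_wm μ ω]
  exact Lp.coeFn_smul c f

lemma norm_lt_le (x : G) (f : Lp ℂ 1 (wm μ ω)) : ‖lt μ ω x f‖ ≤ ω.toFun x * ‖f‖ := by
  rw [norm_w, norm_w, ← integral_mul_left_eq_self (fun y => ω.toFun y * ‖f y‖) x⁻¹,
    ← integral_const_mul]
  have h1 := ((integrable_w μ ω f).comp_mul_left x⁻¹).norm.const_mul (ω.toFun x)
  simp only [norm_smul, Real.norm_of_nonneg (ω.pos _).le] at h1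
  refine integral_mono_of_nonneg (Eventually.of_forall fun y =>
    mul_nonneg (ω.pos _).le (norm_nonneg _)) h1 ?_
  filter_upwards [lt_ae μ ω x f] with y hy
  rw [hy, ← mul_assoc]
  exact mul_le_mul_of_nonneg_right (w_le ω x y) (norm_nonneg _)

/-- left translation as a bounded operator -/
noncomputable def ltL (x : G) : Lp ℂ 1 (wm μ ω) →L[ℂ] Lp ℂ 1 (wm μ ω) :=
  LinearMap.mkContinuous
    { toFun := lt μ ω x
      map_add' := fun f g => ext_w μ ω (by
        filter_upwards [lt_ae μ ω x (f + g), lt_ae μ ω x f, lt_ae μ ω x g,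
          coe_add μ ω (lt μ ω x f) (lt μ ω x g), ae_comp μ x⁻¹ (coe_add μ ω f g)]
          with y h1 h2 h3 h4 h5
        rw [h1, h4, h2, h3, h5])
      map_smul' := fun c f => ext_w μ ω (by
        filter_upwards [lt_ae μ ω x (c • f), lt_ae μ ω x f,
          coe_smul μ ω c (lt μ ω x f), ae_comp μ x⁻¹ (coe_smul μ ω c f)] with y h1 h2 h4 h5
        rw [h1, RingHom.id_apply, h4, h2, h5]) } (ω.toFun x) (norm_lt_le μ ω x)

lemma ltL_apply (x : G) (f : Lp ℂ 1 (wm μ ω)) : ltL μ ω x f = lt μ ω x f := rfl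

lemma lt_lt (x y : G) (f : Lp ℂ 1 (wm μ ω)) : lt μ ω x (lt μ ω y f) = lt μ ω (x * y) f := by
  apply ext_w
  filter_upwards [lt_ae μ ω x (lt μ ω y f), lt_ae μ ω (x * y) f, ae_comp μ x⁻¹ (lt_ae μ ω y f)]
    with t h1 h2 h3
  rw [h1, h2, h3, mul_inv_rev, mul_assoc]

lemma lt_one (f : Lp ℂ 1 (wm μ ω)) : lt μ ω 1 f = f := by
  apply ext_w
  filter_upwards [lt_ae μ ω 1 f] with t h1
  rw [h1, inv_one, one_mul]

lemma abs_w_sub_le (x y : G) : |ω.toFun y - ω.toFun (x⁻¹ * y)| ≤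
    (|ω.toFun x - 1| + |1 - (ω.toFun x⁻¹)⁻¹|) * ω.toFun (x⁻¹ * y) := by
  have h0 := ω.pos (x⁻¹ * y)
  have h1 := w_le ω x y
  have h2 : (ω.toFun x⁻¹)⁻¹ * ω.toFun (x⁻¹ * y) ≤ ω.toFun y := by
    rw [inv_mul_le_iff₀ (ω.pos _)]
    exact ω.submul _ _
  have h3 := mul_le_mul_of_nonneg_right (le_abs_self (ω.toFun x - 1)) h0.le
  have h4 := mul_le_mul_of_nonneg_right (le_abs_self (1 - (ω.toFun x⁻¹)⁻¹)) h0.le
  have h5 := mul_nonneg (abs_nonneg (ω.toFun x - 1)) h0.le
  have h6 := mul_nonneg (abs_nonneg (1 - (ω.toFun x⁻¹)⁻¹)) h0.le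
  rw [abs_le]
  constructor <;> nlinarith

lemma tendsto_lt_one (f : Lp ℂ 1 (wm μ ω)) :
    Tendsto (fun x => ‖lt μ ω x f - f‖) (𝓝 1) (𝓝 0) := by
  let F : Lp ℂ 1 μ := (integrable_w μ ω f).toL1 _
  have hF : F =ᵐ[μ] fun y => ω.toFun y • f y := Integrable.coeFn_toL1 _
  let τ : G → Lp ℂ 1 μ := fun x =>
    Lp.compMeasurePreserving (fun y : G => x⁻¹ * y) (measurePreserving_mul_left μ x⁻¹) F
  have hτ : ∀ x, τ x =ᵐ[μ] fun y => F (x⁻¹ * y) := fun x => Lp.coeFn_compMeasurePreserving F _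
  have hc : Continuous τ := by
    let g : G → C(G, G) := fun x => ⟨fun y => x⁻¹ * y, by fun_prop⟩
    have hg : Continuous g := ContinuousMap.continuous_of_continuous_uncurry g (by
      show Continuous (fun p : G × G => p.1⁻¹ * p.2)
      fun_prop)
    exact Continuous.compMeasurePreservingLp (f := fun _ => F) continuous_const hg
      (fun x => measurePreserving_mul_left μ x⁻¹) ENNReal.one_ne_top
  have h1 : τ 1 = F := Lp.ext (by filter_upwards [hτ 1] with y hy; rw [hy, inv_one, one_mul])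
  let c : G → ℝ := fun x => |ω.toFun x - 1| + |1 - (ω.toFun x⁻¹)⁻¹|
  have hcc : Continuous c := ((ω.continuous.sub continuous_const).abs).add
    (continuous_const.sub ((ω.continuous.comp continuous_inv).inv₀ fun x => (ω.pos _).ne')).abs
  have hlim : Tendsto (fun x => c x * ‖F‖ + ‖τ x - F‖) (𝓝 1) (𝓝 0) := by
    have h2 : Continuous (fun x => c x * ‖F‖ + ‖τ x - F‖) :=
      (hcc.mul continuous_const).add (hc.sub continuous_const).norm
    simpa [c, h1, ω.map_one] using h2.tendsto 1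
  refine squeeze_zero (fun _ => norm_nonneg _) (fun x => ?_) hlim
  have hn : ‖τ x‖ = ‖F‖ := Lp.norm_compMeasurePreserving F _
  rw [← hn, norm_w, L1.norm_eq_integral_norm, L1.norm_eq_integral_norm, ← integral_const_mul,
    ← integral_add ((L1.integrable_coeFn _).norm.const_mul _) (L1.integrable_coeFn _).norm]
  refine integral_mono_of_nonneg (Eventually.of_forall fun y =>
    mul_nonneg (ω.pos _).le (norm_nonneg _))
    (((L1.integrable_coeFn _).norm.const_mul _).add (L1.integrable_coeFn _).norm) ?_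
  filter_upwards [lt_ae μ ω x f, coe_sub μ ω (lt μ ω x f) f, hτ x, hF, ae_comp μ x⁻¹ hF,
    Lp.coeFn_sub (τ x) F] with y a1 a2 a3 a4 a5 a6
  rw [a2, a1, a6, Pi.sub_apply, a3, a4, a5, ← Real.norm_of_nonneg (ω.pos y).le, ← norm_smul,
    Real.norm_of_nonneg (ω.pos y).le]
  have e : ω.toFun y • (f (x⁻¹ * y) - f y) = (ω.toFun y - ω.toFun (x⁻¹ * y)) • f (x⁻¹ * y) +
      (ω.toFun (x⁻¹ * y) • f (x⁻¹ * y) - ω.toFun y • f y) := by
    rw [smul_sub, sub_smul]
    abel
  rw [e]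
  refine (norm_add_le _ _).trans (add_le_add_left ?_ _)
  rw [norm_smul, norm_smul, Real.norm_of_nonneg (ω.pos _).le, ← mul_assoc]
  exact mul_le_mul_of_nonneg_right (abs_w_sub_le ω x y) (norm_nonneg _)

lemma continuous_lt (f : Lp ℂ 1 (wm μ ω)) : Continuous (fun x => lt μ ω x f) := by
  refine continuous_iff_continuousAt.2 fun x₀ => ?_
  have h1 : Tendsto (fun x => x₀⁻¹ * x) (𝓝 x₀) (𝓝 1) := by
    simpa using (continuous_const_mul x₀⁻¹).tendsto x₀
  have h2 := tendsto_iff_norm_sub_tendsto_zero.2 ((tendsto_lt_one μ ω f).comp h1)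
  have h3 := ((ltL μ ω x₀).continuous.tendsto f).comp h2
  refine h3.congr fun x => ?_
  show lt μ ω x₀ (lt μ ω (x₀⁻¹ * x) f) = _
  rw [lt_lt, mul_inv_cancel_left]

lemma exists_compact_lintegral {f : G → ℂ} (hf : Integrable f μ) {ε : ℝ≥0∞} (hε : ε ≠ 0) :
    ∃ K, IsCompact K ∧ ∫⁻ t in Kᶜ, ‖f t‖ₑ ∂μ < ε := by
  have h2 : ε / 2 ≠ 0 := ENNReal.half_pos hε |>.ne'
  obtain ⟨s, hs, hs', h3⟩ := exists_setLIntegral_compl_lt hf.2.ne h2
  obtain ⟨δ, hδ, h4⟩ := exists_pos_setLIntegral_lt_of_measure_lt hf.2.ne h2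
  obtain ⟨K, -, hK, h5⟩ := hs.exists_isCompact_sdiff_lt hs'.ne hδ.ne'
  refine ⟨K, hK, ?_⟩
  have h6 : Kᶜ ⊆ sᶜ ∪ (s \ K) := fun t ht => by
    by_cases h : t ∈ s
    · exact Or.inr ⟨h, ht⟩
    · exact Or.inl h
  calc ∫⁻ t in Kᶜ, ‖f t‖ₑ ∂μ ≤ ∫⁻ t in sᶜ ∪ (s \ K), ‖f t‖ₑ ∂μ := lintegral_mono_set h6
    _ ≤ ∫⁻ t in sᶜ, ‖f t‖ₑ ∂μ + ∫⁻ t in s \ K, ‖f t‖ₑ ∂μ := lintegral_union_le _ _ _
    _ < ε / 2 + ε / 2 := ENNReal.add_lt_add h3 (h4 _ h5)
    _ = ε := ENNReal.add_halves ε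

lemma aesm_smul {E : Type*} [NormedAddCommGroup E] [NormedSpace ℂ E] {f : G → ℂ}
    (hf : Integrable f μ) {π : G → E} (hπ : Continuous π) :
    AEStronglyMeasurable (fun y => f y • π y) μ := by
  have h1 : ∀ n : ℕ, ∃ K, IsCompact K ∧ ∫⁻ t in Kᶜ, ‖f t‖ₑ ∂μ < (n : ℝ≥0∞)⁻¹ :=
    fun n => exists_compact_lintegral μ hf (ENNReal.inv_ne_zero.2 (ENNReal.natCast_ne_top n))
  choose K hK hK' using h1
  have hS : MeasurableSet (⋃ n, K n) := MeasurableSet.iUnion (fun n => (hK n).measurableSet)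
  have h2 : ∫⁻ t in (⋃ n, K n)ᶜ, ‖f t‖ₑ ∂μ = 0 := by
    refine le_antisymm (ge_of_tendsto' ENNReal.tendsto_inv_nat_nhds_zero (fun n => ?_)) zero_le
    exact (lintegral_mono_set (compl_subset_compl.2 (subset_iUnion K n))).trans (hK' n).le
  rw [lintegral_eq_zero_iff' hf.1.enorm.restrict] at h2
  have h3 : AEStronglyMeasurable (fun y => f y • π y) (μ.restrict (⋃ n, K n)) :=
    hf.1.restrict.smul (aestronglyMeasurable_iUnion_iff.2 (fun n =>
      hπ.continuousOn.aestronglyMeasurable_of_isCompact (hK n) (hK n).measurableSet))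
  refine ((aestronglyMeasurable_indicator_iff hS).2 h3).congr ?_
  filter_upwards [(ae_restrict_iff' hS.compl).1 h2] with t ht
  by_cases h : t ∈ ⋃ n, K n
  · rw [indicator_of_mem h]
  · have h4 : f t = 0 := by simpa using ht h
    rw [indicator_of_notMem h, h4, zero_smul]

lemma integrable_smul {E : Type*} [NormedAddCommGroup E] [NormedSpace ℂ E]
    (f : Lp ℂ 1 (wm μ ω)) {π : G → E} (hπ : Continuous π) {C : ℝ}
    (hC : ∀ y, ‖π y‖ ≤ ω.toFun y * C) : Integrable (fun y => f y • π y) μ := by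
  have h1 : Continuous (fun y => ((ω.toFun y : ℂ))⁻¹ • π y) :=
    ((Complex.continuous_ofReal.comp ω.continuous).inv₀
      fun x => Complex.ofReal_ne_zero.2 (ω.pos x).ne').smul hπ
  refine Integrable.mono' ((integrable_w μ ω f).norm.mul_const C)
    ((aesm_smul μ (integrable_w μ ω f) h1).congr (Eventually.of_forall fun y => ?_))
    (Eventually.of_forall (fun y => ?_))
  · have h2 : (ω.toFun y : ℂ) ≠ 0 := Complex.ofReal_ne_zero.2 (ω.pos y).ne'
    show (ω.toFun y • f y) • ((ω.toFun y : ℂ))⁻¹ • π y = f y • π y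
    rw [smul_smul, Complex.real_smul, mul_comm (ω.toFun y : ℂ), mul_assoc, mul_inv_cancel₀ h2,
      mul_one]
  · rw [norm_smul, norm_smul, Real.norm_of_nonneg (ω.pos _).le, mul_comm (ω.toFun y), mul_assoc]
    exact mul_le_mul_of_nonneg_left (hC y) (norm_nonneg _)

lemma norm_integral_smul_le {E : Type*} [NormedAddCommGroup E] [NormedSpace ℂ E]
    (f : Lp ℂ 1 (wm μ ω)) {π : G → E} {C : ℝ} (hC : ∀ y, ‖π y‖ ≤ ω.toFun y * C) :
    ‖∫ y, f y • π y ∂μ‖ ≤ ‖f‖ * C := by
  have h1 := (integrable_w μ ω f).norm.mul_const C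
  simp only [norm_smul, Real.norm_of_nonneg (ω.pos _).le] at h1
  rw [norm_w, ← integral_mul_const]
  refine norm_integral_le_of_norm_le h1 (Eventually.of_forall fun y => ?_)
  rw [norm_smul, mul_comm (ω.toFun y), mul_assoc]
  exact mul_le_mul_of_nonneg_left (hC y) (norm_nonneg _)

lemma integrable_conv (f g : Lp ℂ 1 (wm μ ω)) : Integrable (fun y => f y • lt μ ω y g) μ :=
  integrable_smul μ ω f (continuous_lt μ ω g) (fun y => norm_lt_le μ ω y g)

lemma norm_conv_le (f g : Lp ℂ 1 (wm μ ω)) : ‖conv μ ω f g‖ ≤ ‖f‖ * ‖g‖ :=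
  norm_integral_smul_le μ ω f (fun y => norm_lt_le μ ω y g)

lemma conv_add_left (f f' g : Lp ℂ 1 (wm μ ω)) :
    conv μ ω (f + f') g = conv μ ω f g + conv μ ω f' g := by
  unfold conv
  rw [← integral_add (integrable_conv μ ω f g) (integrable_conv μ ω f' g)]
  refine integral_congr_ae ?_
  filter_upwards [coe_add μ ω f f'] with y hy
  rw [hy, add_smul]

lemma conv_add_right (f g g' : Lp ℂ 1 (wm μ ω)) :
    conv μ ω f (g + g') = conv μ ω f g + conv μ ω f g' := by
  unfold conv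
  rw [← integral_add (integrable_conv μ ω f g) (integrable_conv μ ω f g')]
  refine integral_congr_ae (Eventually.of_forall (fun y => ?_))
  show f y • ltL μ ω y (g + g') = f y • ltL μ ω y g + f y • ltL μ ω y g'
  rw [map_add, smul_add]

lemma conv_smul_left (c : ℂ) (f g : Lp ℂ 1 (wm μ ω)) :
    conv μ ω (c • f) g = c • conv μ ω f g := by
  unfold conv
  rw [← integral_smul]
  refine integral_congr_ae ?_
  filter_upwards [coe_smul μ ω c f] with y hy
  rw [hy, mul_smul]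

lemma conv_smul_right (c : ℂ) (f g : Lp ℂ 1 (wm μ ω)) :
    conv μ ω f (c • g) = c • conv μ ω f g := by
  unfold conv
  rw [← integral_smul]
  refine integral_congr_ae (Eventually.of_forall (fun y => ?_))
  show f y • ltL μ ω y (c • g) = c • f y • ltL μ ω y g
  rw [map_smul, smul_comm]

lemma lt_conv (x : G) (f g : Lp ℂ 1 (wm μ ω)) :
    lt μ ω x (conv μ ω f g) = conv μ ω (lt μ ω x f) g := by
  unfold conv
  rw [← ltL_apply, ← (ltL μ ω x).integral_comp_comm (integrable_conv μ ω f g),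
    ← integral_mul_left_eq_self _ x⁻¹]
  refine integral_congr_ae ?_
  filter_upwards [lt_ae μ ω x f] with y hy
  rw [hy, map_smul, ltL_apply, lt_lt, mul_inv_cancel_left]

lemma conv_assoc (f g h : Lp ℂ 1 (wm μ ω)) :
    conv μ ω (conv μ ω f g) h = conv μ ω f (conv μ ω g h) := by
  let R : Lp ℂ 1 (wm μ ω) →L[ℂ] Lp ℂ 1 (wm μ ω) := LinearMap.mkContinuous
    { toFun := fun f => conv μ ω f h
      map_add' := fun f f' => conv_add_left μ ω f f' h
      map_smul' := fun c f => conv_smul_left μ ω c f h } ‖h‖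
    (fun f => (norm_conv_le μ ω f h).trans (le_of_eq (mul_comm _ _)))
  have h1 : R (conv μ ω f g) = ∫ y, R (f y • lt μ ω y g) ∂μ :=
    (R.integral_comp_comm (integrable_conv μ ω f g)).symm
  refine h1.trans (integral_congr_ae (Eventually.of_forall (fun y => ?_)))
  show R (f y • lt μ ω y g) = f y • lt μ ω y (conv μ ω g h)
  rw [map_smul, lt_conv]
  rfl

/-- The Beurling algebra `L¹(G, ω)`: the Banach space `L¹(G, ω dμ)` with norm `∫ |f| ω dμ`;
its product, defined below, is convolution. -/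
def Beurling : Type _ := Lp ℂ 1 (wm μ ω)

noncomputable instance : NormedAddCommGroup (Beurling μ ω) :=
  (inferInstance : NormedAddCommGroup (Lp ℂ 1 (wm μ ω)))

noncomputable instance : NormedSpace ℂ (Beurling μ ω) :=
  (inferInstance : NormedSpace ℂ (Lp ℂ 1 (wm μ ω)))

/-- `L¹(G, ω)` with convolution as product -/
noncomputable instance : NonUnitalNormedRing (Beurling μ ω) :=
  { (inferInstance : NormedAddCommGroup (Beurling μ ω)) with
    mul := fun f g => conv μ ω f g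
    left_distrib := fun f g h => conv_add_right μ ω f g h
    right_distrib := fun f g h => conv_add_left μ ω f g h
    zero_mul := fun f => by
      have h := conv_smul_left μ ω 0 0 f
      rw [zero_smul, zero_smul] at h
      exact h
    mul_zero := fun f => by
      have h := conv_smul_right μ ω 0 f 0
      rw [zero_smul, zero_smul] at h
      exact h
    mul_assoc := fun f g h => conv_assoc μ ω f g h
    norm_mul_le := fun f g => norm_conv_le μ ω f g }

instance : IsScalarTower ℂ (Beurling μ ω) (Beurling μ ω) :=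
  ⟨fun c f g => conv_smul_left μ ω c f g⟩

instance : SMulCommClass ℂ (Beurling μ ω) (Beurling μ ω) :=
  ⟨fun c f g => (conv_smul_right μ ω c f g).symm⟩

end Pool.Agent.H283Z
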