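import Pool.Agent.H283Z.Beurling

set_option autoImplicit false
set_option linter.unusedSectionVars false

namespace Pool.Agent.H283Z.Core

open BoundedContinuousFunction Filter Topology Set

variable {G : Type*} [TopologicalSpace G] [DiscreteTopology G]

abbrev E (G : Type*) [TopologicalSpace G] := G →ᵇ ℝ

abbrev WD (X : Type*) [NormedAddCommGroup X] [NormedSpace ℝ X] := WeakDual ℝ X

instance (X : Type*) [NormedAddCommGroup X] [NormedSpace ℝ X] : LocallyConvexSpace ℝ (WD X) :=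
  (WeakDual.withSeminorms ℝ X).toLocallyConvexSpace

lemma sepW {X : Type*} [NormedAddCommGroup X] [NormedSpace ℝ X] {L : Set (WD X)}
    (h : IsClosed L) (h2 : Convex ℝ L) {x : WD X} (hx : x ∉ L) :
    ∃ (g : X) (u : ℝ), x g < u ∧ ∀ b ∈ L, u < b g := by
  obtain ⟨f, u, h1, h2⟩ := geometric_hahn_banach_point_closed h2 h hx
  obtain ⟨g, hg⟩ := LinearMap.dualEmbedding_surjective (topDualPairing ℝ X) f
  subst hg
  exact ⟨g, u, h1, h2⟩

abbrev W (G : Type*) [TopologicalSpace G] := WD (G →ᵇ ℝ)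

noncomputable def mkE (u : G → ℝ) (C : ℝ) (h : ∀ t, |u t| ≤ C) : E G :=
  ofNormedAddCommGroupDiscrete u C h

@[simp] lemma mkE_apply (u : G → ℝ) (C : ℝ) (h : ∀ t, |u t| ≤ C) (t : G) : mkE u C h t = u t := rfl

lemma abs_le_norm (f : E G) (t : G) : |f t| ≤ ‖f‖ := f.norm_coe_le_norm t

lemma norm_le_of {f : E G} {C : ℝ} (hC : 0 ≤ C) (h : ∀ t, |f t| ≤ C) : ‖f‖ ≤ C :=
  (norm_le hC).2 h

@[simp] lemma add_ap (Φ Ψ : W G) (f : E G) : (Φ + Ψ) f = Φ f + Ψ f := rfl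
@[simp] lemma sub_ap (Φ Ψ : W G) (f : E G) : (Φ - Ψ) f = Φ f - Ψ f := rfl
@[simp] lemma neg_ap (Φ : W G) (f : E G) : (-Φ) f = - Φ f := rfl
@[simp] lemma zero_ap (f : E G) : (0 : W G) f = 0 := rfl
@[simp] lemma smul_ap (c : ℝ) (Φ : W G) (f : E G) : (c • Φ) f = c * Φ f := rfl

lemma sum_ap {ι : Type*} (s : Finset ι) (Φ : ι → W G) (f : E G) :
    (∑ i ∈ s, Φ i) f = ∑ i ∈ s, Φ i f := by
  classical
  induction s using Finset.induction_on with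
  | empty => simp
  | insert a s ha ih => rw [Finset.sum_insert ha, Finset.sum_insert ha, add_ap, ih]

lemma Wext {Φ Ψ : W G} (h : ∀ f, Φ f = Ψ f) : Φ = Ψ := DFunLike.ext _ _ h

lemma cont_ap (f : E G) : Continuous fun x : W G => x f := WeakDual.eval_continuous f

noncomputable def nm (Φ : W G) : ℝ := ‖WeakDual.toStrongDual Φ‖

lemma nm_nonneg (Φ : W G) : 0 ≤ nm Φ := norm_nonneg _

lemma abs_ap_le (Φ : W G) (f : E G) : |Φ f| ≤ nm Φ * ‖f‖ :=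
  (WeakDual.toStrongDual Φ).le_opNorm f

lemma nm_le {Φ : W G} {C : ℝ} (hC : 0 ≤ C) (h : ∀ f, |Φ f| ≤ C * ‖f‖) : nm Φ ≤ C :=
  ContinuousLinearMap.opNorm_le_bound _ hC h

lemma nm_sub_le (Φ Ψ : W G) : nm (Φ - Ψ) ≤ nm Φ + nm Ψ := by
  unfold nm
  rw [map_sub]
  exact norm_sub_le _ _

/-- build an element of the dual from a bounded linear functional -/
noncomputable def mkW (φ : E G →ₗ[ℝ] ℝ) (C : ℝ) (h : ∀ f, |φ f| ≤ C * ‖f‖) : W G :=
  StrongDual.toWeakDual (φ.mkContinuous C h)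

@[simp] lemma mkW_ap (φ : E G →ₗ[ℝ] ℝ) (C : ℝ) (h : ∀ f, |φ f| ≤ C * ‖f‖) (f : E G) :
    mkW φ C h f = φ f := rfl

noncomputable def ev (t : G) : W G := StrongDual.toWeakDual (evalCLM ℝ t)

@[simp] lemma ev_ap (t : G) (f : E G) : ev t f = f t := rfl

def Pos (Ψ : W G) : Prop := ∀ f : E G, (∀ t, 0 ≤ f t) → 0 ≤ Ψ f

lemma Pos.mono {Ψ : W G} (h : Pos Ψ) {f g : E G} (hfg : ∀ t, f t ≤ g t) : Ψ f ≤ Ψ g := by
  have := h (g - f) (fun t => by simpa using hfg t)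
  rw [map_sub] at this
  linarith

lemma Pos.one {Ψ : W G} (h : Pos Ψ) : 0 ≤ Ψ 1 := h 1 (fun _ => zero_le_one)

lemma Pos.abs_le {Ψ : W G} (h : Pos Ψ) (f : E G) : |Ψ f| ≤ Ψ 1 * ‖f‖ := by
  have h1 := h.mono (f := f) (g := ‖f‖ • (1 : E G)) (fun t => by
    simpa using (le_abs_self _).trans (abs_le_norm f t))
  have h2 := h.mono (f := -f) (g := ‖f‖ • (1 : E G)) (fun t => by
    simpa using (neg_le_abs _).trans (abs_le_norm f t))
  rw [map_smul, smul_eq_mul] at h1 h2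
  rw [map_neg] at h2
  rw [_root_.abs_le]
  constructor <;> linarith

lemma Pos.nm_le {Ψ : W G} (h : Pos Ψ) : nm Ψ ≤ Ψ 1 := Core.nm_le h.one h.abs_le

lemma Pos.eq_zero {Ψ : W G} (h : Pos Ψ) (h1 : Ψ 1 = 0) : Ψ = 0 :=
  Wext fun f => by simpa [h1] using h.abs_le f

lemma Pos.add {Φ Ψ : W G} (h : Pos Φ) (h' : Pos Ψ) : Pos (Φ + Ψ) :=
  fun f hf => add_nonneg (h f hf) (h' f hf)

lemma Pos.smul {Φ : W G} (h : Pos Φ) {c : ℝ} (hc : 0 ≤ c) : Pos (c • Φ) :=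
  fun f hf => mul_nonneg hc (h f hf)

lemma pos_ev (t : G) : Pos (ev t) := fun _ hf => hf t

lemma isClosed_pos : IsClosed {x : W G | Pos x} := by
  have : {x : W G | Pos x} = ⋂ f : E G, ⋂ _ : (∀ t, 0 ≤ f t), {x : W G | 0 ≤ x f} := by
    ext x
    simp [Pos]
  rw [this]
  exact isClosed_iInter fun f => isClosed_iInter fun _ => isClosed_le continuous_const (cont_ap f)

lemma isCompact_nm (C : ℝ) : IsCompact {x : W G | nm x ≤ C} := by
  have := WeakDual.isCompact_closedBall (𝕜 := ℝ) (0 : StrongDual ℝ (E G)) C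
  convert this using 1
  ext x
  simp [nm]

lemma isCompact_Q {L : Set (W G)} (hL : IsClosed L) (hp : ∀ x ∈ L, Pos x) :
    IsCompact {x : W G | x ∈ L ∧ x 1 = 1} :=
  (isCompact_nm 1).of_isClosed_subset (hL.inter (isClosed_eq (cont_ap 1) continuous_const))
    (fun x hx => ((hp x hx.1).nm_le).trans hx.2.le)

lemma exists_lim {ι : Type*} (U : Ultrafilter ι) (b : ι → W G) {C : ℝ} (hb : ∀ i, nm (b i) ≤ C) :
    ∃ Ψ : W G, nm Ψ ≤ C ∧ ∀ f, Tendsto (fun i => b i f) U (𝓝 (Ψ f)) := by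
  obtain ⟨Ψ, hΨ, h⟩ := (isCompact_nm C).ultrafilter_le_nhds (U.map b)
    (by
      rw [le_principal_iff]
      exact Filter.mem_map.2 (Eventually.of_forall hb))
  exact ⟨Ψ, hΨ, fun f => ((cont_ap f).tendsto Ψ).comp h⟩

variable [Group G] (ω : Weight G)

lemma ratio_le (s t : G) : ω.toFun (s * t) / ω.toFun t ≤ ω.toFun s := by
  rw [div_le_iff₀ (ω.pos t)]
  exact ω.submul s t

lemma ratio_pos (s t : G) : 0 < ω.toFun (s * t) / ω.toFun t := div_pos (ω.pos _) (ω.pos _)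

lemma sh_bound (s : G) (f : E G) (t : G) :
    |ω.toFun (s * t) / ω.toFun t * f (s * t)| ≤ ω.toFun s * ‖f‖ := by
  rw [abs_mul, abs_of_pos (ratio_pos ω s t)]
  exact mul_le_mul (ratio_le ω s t) (abs_le_norm f _) (abs_nonneg _) (ω.pos s).le

/-- the weighted left shift -/
noncomputable def sh (s : G) : E G →L[ℝ] E G :=
  LinearMap.mkContinuous
    { toFun := fun f => mkE (fun t => ω.toFun (s * t) / ω.toFun t * f (s * t)) _ (sh_bound ω s f)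
      map_add' := fun f g => by ext t; simp [mul_add]
      map_smul' := fun c f => by ext t; simp [mul_left_comm] } (ω.toFun s)
    (fun f => norm_le_of (mul_nonneg (ω.pos s).le (norm_nonneg _)) (sh_bound ω s f))

lemma sh_ap (s : G) (f : E G) (t : G) :
    sh ω s f t = ω.toFun (s * t) / ω.toFun t * f (s * t) := rfl

lemma norm_sh_le (s : G) (f : E G) : ‖sh ω s f‖ ≤ ω.toFun s * ‖f‖ :=
  norm_le_of (mul_nonneg (ω.pos s).le (norm_nonneg _)) (sh_bound ω s f)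

lemma sh_sh (s t : G) (f : E G) : sh ω t (sh ω s f) = sh ω (s * t) f := by
  ext r
  have := (ω.pos (t * r)).ne'
  have := (ω.pos r).ne'
  simp only [sh_ap, mul_assoc]
  field_simp

lemma sh_one (f : E G) : sh ω 1 f = f := by
  ext r
  have := (ω.pos r).ne'
  simp only [sh_ap, one_mul]
  field_simp

lemma sh_nonneg (s : G) {f : E G} (hf : ∀ t, 0 ≤ f t) (t : G) : 0 ≤ sh ω s f t :=
  mul_nonneg (ratio_pos ω s t).le (hf _)

lemma T_bound (Ψ : W G) (f : E G) (s : G) : |Ψ (sh ω s f) / ω.toFun s| ≤ nm Ψ * ‖f‖ := by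
  rw [abs_div, abs_of_pos (ω.pos s), div_le_iff₀ (ω.pos s)]
  refine (abs_ap_le Ψ _).trans ?_
  rw [mul_assoc, mul_comm ‖f‖]
  exact mul_le_mul_of_nonneg_left (norm_sh_le ω s f) (nm_nonneg _)

/-- the operator `f ↦ Ψ · f` -/
noncomputable def T (Ψ : W G) : E G →L[ℝ] E G :=
  LinearMap.mkContinuous
    { toFun := fun f => mkE (fun s => Ψ (sh ω s f) / ω.toFun s) _ (T_bound ω Ψ f)
      map_add' := fun f g => by ext t; simp [add_div]
      map_smul' := fun c f => by ext t; simp [mul_div_assoc] } (nm Ψ)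
    (fun f => norm_le_of (mul_nonneg (nm_nonneg _) (norm_nonneg _)) (T_bound ω Ψ f))

lemma T_ap (Ψ : W G) (f : E G) (s : G) : T ω Ψ f s = Ψ (sh ω s f) / ω.toFun s := rfl

lemma norm_T_le (Ψ : W G) (f : E G) : ‖T ω Ψ f‖ ≤ nm Ψ * ‖f‖ :=
  norm_le_of (mul_nonneg (nm_nonneg _) (norm_nonneg _)) (T_bound ω Ψ f)

lemma T_sh (Ψ : W G) (s : G) (f : E G) : T ω Ψ (sh ω s f) = sh ω s (T ω Ψ f) := by
  ext t
  have := (ω.pos (s * t)).ne'
  have := (ω.pos t).ne'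
  simp only [T_ap, sh_ap, sh_sh]
  field_simp

/-- the Arens product -/
noncomputable def mul (Φ Ψ : W G) : W G :=
  StrongDual.toWeakDual ((WeakDual.toStrongDual Φ).comp (T ω Ψ))

lemma mul_ap (Φ Ψ : W G) (f : E G) : mul ω Φ Ψ f = Φ (T ω Ψ f) := rfl

/-- left multiplication by a group element -/
noncomputable def lm (s : G) (Ψ : W G) : W G :=
  StrongDual.toWeakDual ((WeakDual.toStrongDual Ψ).comp (sh ω s))

lemma lm_ap (s : G) (Ψ : W G) (f : E G) : lm ω s Ψ f = Ψ (sh ω s f) := rfl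

lemma lm_lm (s t : G) (Ψ : W G) : lm ω s (lm ω t Ψ) = lm ω (s * t) Ψ :=
  Wext fun f => by simp only [lm_ap, sh_sh]

lemma lm_one (Ψ : W G) : lm ω 1 Ψ = Ψ := Wext fun f => by simp only [lm_ap, sh_one]

lemma lm_sub (s : G) (Φ Ψ : W G) : lm ω s (Φ - Ψ) = lm ω s Φ - lm ω s Ψ := rfl
lemma lm_add (s : G) (Φ Ψ : W G) : lm ω s (Φ + Ψ) = lm ω s Φ + lm ω s Ψ := rfl
lemma lm_smul (s : G) (c : ℝ) (Φ : W G) : lm ω s (c • Φ) = c • lm ω s Φ := rfl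

lemma T_mul (Φ Ψ : W G) (f : E G) : T ω (mul ω Φ Ψ) f = T ω Φ (T ω Ψ f) := by
  ext s
  simp only [T_ap, mul_ap, T_sh]

lemma mul_assoc' (Φ Ψ Θ : W G) : mul ω (mul ω Φ Ψ) Θ = mul ω Φ (mul ω Ψ Θ) :=
  Wext fun f => by simp only [mul_ap, T_mul]

lemma lm_mul (s : G) (Φ Ψ : W G) : lm ω s (mul ω Φ Ψ) = mul ω (lm ω s Φ) Ψ :=
  Wext fun f => by simp only [mul_ap, lm_ap, T_sh]

lemma T_add (Φ Ψ : W G) (f : E G) : T ω (Φ + Ψ) f = T ω Φ f + T ω Ψ f := by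
  ext s; simp [T_ap, add_div]

lemma T_sub (Φ Ψ : W G) (f : E G) : T ω (Φ - Ψ) f = T ω Φ f - T ω Ψ f := by
  ext s; simp [T_ap, sub_div]

lemma T_smul (c : ℝ) (Φ : W G) (f : E G) : T ω (c • Φ) f = c • T ω Φ f := by
  ext s; simp [T_ap, mul_div_assoc]

lemma mul_add' (Φ Ψ Θ : W G) : mul ω Φ (Ψ + Θ) = mul ω Φ Ψ + mul ω Φ Θ :=
  Wext fun f => by simp [mul_ap, T_add]

lemma mul_sub' (Φ Ψ Θ : W G) : mul ω Φ (Ψ - Θ) = mul ω Φ Ψ - mul ω Φ Θ :=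
  Wext fun f => by simp [mul_ap, T_sub]

lemma mul_smul' (c : ℝ) (Φ Ψ : W G) : mul ω Φ (c • Ψ) = c • mul ω Φ Ψ :=
  Wext fun f => by simp [mul_ap, T_smul]

lemma add_mul' (Φ Ψ Θ : W G) : mul ω (Φ + Ψ) Θ = mul ω Φ Θ + mul ω Ψ Θ := rfl
lemma sub_mul' (Φ Ψ Θ : W G) : mul ω (Φ - Ψ) Θ = mul ω Φ Θ - mul ω Ψ Θ := rfl
lemma smul_mul' (c : ℝ) (Φ Θ : W G) : mul ω (c • Φ) Θ = c • mul ω Φ Θ := rfl
lemma zero_mul' (Θ : W G) : mul ω 0 Θ = 0 := rfl

lemma mul_zero' (Φ : W G) : mul ω Φ 0 = 0 := by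
  have := mul_smul' ω 0 Φ 0
  simpa using this

lemma nm_mul_le (Φ Ψ : W G) : nm (mul ω Φ Ψ) ≤ nm Φ * nm Ψ := by
  refine nm_le (mul_nonneg (nm_nonneg _) (nm_nonneg _)) fun f => ?_
  rw [mul_ap, mul_assoc]
  exact (abs_ap_le _ _).trans (mul_le_mul_of_nonneg_left (norm_T_le ω Ψ f) (nm_nonneg _))

lemma cont_mul (y : W G) : Continuous fun x : W G => mul ω x y :=
  WeakDual.continuous_of_continuous_eval fun f => cont_ap (T ω y f)

lemma Pos.lm {Ψ : W G} (h : Pos Ψ) (s : G) : Pos (lm ω s Ψ) :=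
  fun _ hf => h _ (sh_nonneg ω s hf)

lemma Pos.T_nonneg {Ψ : W G} (h : Pos Ψ) {f : E G} (hf : ∀ t, 0 ≤ f t) (s : G) :
    0 ≤ T ω Ψ f s := div_nonneg (h _ (sh_nonneg ω s hf)) (ω.pos s).le

lemma Pos.mul {Φ Ψ : W G} (h : Pos Φ) (h' : Pos Ψ) : Pos (mul ω Φ Ψ) :=
  fun _ hf => h _ (h'.T_nonneg ω hf)

lemma norm_one_le : ‖(1 : E G)‖ ≤ 1 := norm_le_of zero_le_one (fun t => by simp)

lemma Pos.lm_one_le {Ψ : W G} (h : Pos Ψ) (s : G) : Core.lm ω s Ψ 1 ≤ ω.toFun s * Ψ 1 := by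
  have := h.mono (f := sh ω s 1) (g := ω.toFun s • (1 : E G)) (fun t => by
    simpa [sh_ap] using ratio_le ω s t)
  rwa [map_smul] at this

lemma Pos.lm_one_pos {Ψ : W G} (h : Pos Ψ) (h1 : 0 < Ψ 1) (s : G) : 0 < Core.lm ω s Ψ 1 := by
  have h2 := (h.lm ω s).lm_one_le ω s⁻¹
  rw [lm_lm, inv_mul_cancel, lm_one] at h2
  exact (mul_pos_iff_of_pos_left (ω.pos _)).1 (h1.trans_le h2)

lemma mul_ev_one (Ψ : W G) : mul ω (ev 1) Ψ = Ψ :=
  Wext fun f => by simp [mul_ap, T_ap, sh_one, ω.map_one]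

end Pool.Agent.H283Z.Core
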