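import Pool.Agent.H283Z.Core1

set_option autoImplicit false
set_option linter.unusedSectionVars false

namespace Pool.Agent.H283Z.Core

open BoundedContinuousFunction Filter Topology Set Cardinal

lemma hb_inf {X : Type*} [AddCommGroup X] [Module ℝ X] (R : X → Set ℝ)
    (hne : ∀ f, (R f).Nonempty) (hbd : ∀ f, BddBelow (R f))
    (hadd : ∀ f g, ∀ a ∈ R f, ∀ b ∈ R g, a + b ∈ R (f + g))
    (hsm : ∀ c : ℝ, 0 < c → ∀ f, ∀ a ∈ R f, c * a ∈ R (c • f)) (f₀ : X) :
    ∃ φ : X →ₗ[ℝ] ℝ, (∀ f, ∀ a ∈ R f, φ f ≤ a) ∧ φ f₀ = sInf (R f₀) := by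
  let q : X → ℝ := fun f => sInf (R f)
  have hle : ∀ c : ℝ, 0 < c → ∀ f, q (c • f) ≤ c * q f := fun c hc f => by
    rw [← div_le_iff₀' hc]
    refine le_csInf (hne f) fun a ha => ?_
    rw [div_le_iff₀' hc]
    exact csInf_le (hbd _) (hsm c hc f a ha)
  have hom : ∀ c : ℝ, 0 < c → ∀ f, q (c • f) = c * q f := fun c hc f => by
    refine le_antisymm (hle c hc f) ?_
    have := hle c⁻¹ (inv_pos.2 hc) (c • f)
    rw [inv_smul_smul₀ hc.ne'] at this
    rwa [← le_div_iff₀' hc, div_eq_inv_mul]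
  have add : ∀ f g, q (f + g) ≤ q f + q g := fun f g => by
    have h1 : ∀ b ∈ R g, q (f + g) - b ≤ q f := fun b hb =>
      le_csInf (hne f) fun a ha => by
        have := csInf_le (hbd _) (hadd f g a ha b hb)
        show sInf (R (f + g)) - b ≤ a
        linarith
    have h2 : q (f + g) - q f ≤ q g := le_csInf (hne g) fun b hb => by linarith [h1 b hb]
    linarith
  have h0 : q 0 = 0 := by
    have := hom 2 two_pos 0
    rw [smul_zero] at this
    linarith
  have key : ∃ φ : X →ₗ[ℝ] ℝ, (∀ f, φ f ≤ q f) ∧ φ f₀ = q f₀ := by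
    by_cases hf : f₀ = 0
    · obtain ⟨φ, -, h⟩ := exists_extension_of_le_sublinear (⊥ : X →ₗ.[ℝ] ℝ) q hom add (by
        rintro ⟨x, hx⟩
        have hx0 : x = 0 := hx
        subst hx0
        exact (le_of_eq (map_zero _)).trans h0.ge)
      exact ⟨φ, h, by rw [hf, map_zero, h0]⟩
    · obtain ⟨φ, h1, h⟩ := exists_extension_of_le_sublinear
        (LinearPMap.mkSpanSingleton f₀ (q f₀) hf) q hom add (by
        rintro ⟨x, hx⟩
        obtain ⟨c, rfl⟩ := Submodule.mem_span_singleton.1 hx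
        rw [LinearPMap.mkSpanSingleton'_apply]
        show c * q f₀ ≤ q (c • f₀)
        rcases lt_trichotomy c 0 with hc | rfl | hc
        · have h2 := add (c • f₀) ((-c) • f₀)
          rw [← add_smul, add_neg_cancel, zero_smul, h0, hom (-c) (neg_pos.2 hc)] at h2
          linarith
        · simp [h0]
        · exact (hom c hc f₀).ge)
      refine ⟨φ, h, ?_⟩
      have := h1 ⟨f₀, Submodule.mem_span_singleton_self f₀⟩
      rwa [LinearPMap.mkSpanSingleton_apply] at this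
  obtain ⟨φ, h1, h2⟩ := key
  exact ⟨φ, fun f a ha => (h1 f).trans (csInf_le (hbd f) ha), h2⟩

lemma sep_ball {X : Type*} [NormedAddCommGroup X] [NormedSpace ℝ X] {K : Set X}
    (hK : Convex ℝ K) (ξ : X) {η : ℝ} (hη : 0 < η)
    (h : ∀ ℓ : X →L[ℝ] ℝ, ‖ℓ‖ ≤ 1 → ∃ k ∈ K, ℓ k < ℓ ξ + η) : ∃ k ∈ K, ‖k - ξ‖ < η := by
  by_contra hc
  push Not at hc
  obtain ⟨f, u, h1, h2⟩ := geometric_hahn_banach_open (convex_ball ξ η) Metric.isOpen_ball hK
    (Set.disjoint_left.2 fun a ha hb => by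
      have := hc a hb
      rw [mem_ball_iff_norm] at ha
      linarith)
  obtain ⟨k₀, hk₀, -⟩ := h 0 (by simp)
  have hf : 0 < ‖f‖ := by
    refine norm_pos_iff.2 fun h0 => ?_
    have a1 := h1 ξ (Metric.mem_ball_self hη)
    have a2 := h2 k₀ hk₀
    simp only [h0, _root_.zero_apply] at a1 a2
    linarith
  have hu : f ξ ≤ u := (h1 ξ (Metric.mem_ball_self hη)).le
  have h3 : ‖f‖ ≤ (u - f ξ) / η := by
    refine ContinuousLinearMap.opNorm_le_of_unit_norm (div_nonneg (by linarith) hη.le)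
      fun x hx => ?_
    have h4 : ∀ y : X, ‖y‖ = 1 → f y ≤ (u - f ξ) / η := fun y hy => by
      rw [le_div_iff₀ hη]
      have hcl : ξ + η • y ∈ closure (Metric.ball ξ η) := by
        rw [closure_ball ξ hη.ne', mem_closedBall_iff_norm]
        simp [norm_smul, hy, abs_of_pos hη]
      have h5 : f (ξ + η • y) ≤ u :=
        closure_minimal (fun a ha => (h1 a ha).le) (isClosed_le f.continuous continuous_const) hcl
      rw [map_add, map_smul, smul_eq_mul] at h5
      linarith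
    have h6 := h4 (-x) (by simpa using hx)
    rw [map_neg] at h6
    rw [Real.norm_eq_abs, abs_le]
    exact ⟨by linarith, h4 x hx⟩
  obtain ⟨k, hk, hk'⟩ := h (‖f‖⁻¹ • f) (by rw [norm_smul, norm_inv, norm_norm, inv_mul_cancel₀ hf.ne'])
  have h7 := h2 k hk
  simp only [_root_.smul_apply, smul_eq_mul] at hk'
  rw [le_div_iff₀ hη] at h3
  have h8 := mul_lt_mul_of_pos_left hk' hf
  rw [mul_add, mul_inv_cancel_left₀ hf.ne', mul_inv_cancel_left₀ hf.ne'] at h8
  linarith

universe u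

lemma exists_disjoint_family {ι G : Type u} (hι : #ι ≤ #G) (hG : ℵ₀ ≤ #G)
    (P : ι → Finset G → Prop)
    (h : ∀ i, ∀ S : Set G, #S < #G → ∃ D : Finset G, P i D ∧ Disjoint (D : Set G) S) :
    ∃ D : ι → Finset G, (∀ i, P i (D i)) ∧ ∀ i j, i ≠ j → Disjoint (D i : Set G) (D j) := by
  obtain ⟨r, wo, hr⟩ := Cardinal.exists_ord_eq ι
  have small : ∀ (i : ι) (D : ∀ j, r j i → Finset G),
      #(⋃ j : {j // r j i}, (D j.1 j.2 : Set G)) < #G := fun i D => by
    have h1 : #{j // r j i} < #G := by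
      have := Cardinal.card_typein_lt (r := r) i hr
      rw [Ordinal.card_typein] at this
      exact this.trans_le hι
    by_cases hf : Finite {j // r j i}
    · exact (lt_aleph0_iff_set_finite.2
        (Set.finite_iUnion fun j : {j // r j i} => (D j.1 j.2).finite_toSet)).trans_le hG
    · have h2 : ℵ₀ ≤ #{j // r j i} := aleph0_le_mk_iff.2 (not_finite_iff_infinite.1 hf)
      refine lt_of_le_of_lt (mk_iUnion_le_sum_mk.trans ?_) h1
      calc sum (fun j : {j // r j i} => #(D j.1 j.2 : Set G))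
          ≤ sum (fun _ : {j // r j i} => #{j // r j i}) :=
            sum_le_sum _ _ fun j => ((D j.1 j.2).finite_toSet.lt_aleph0.le).trans h2
        _ = #{j // r j i} := by rw [sum_const', mul_eq_self h2]
  let step : ∀ i : ι, (∀ j, r j i → Finset G) → Finset G := fun i D => (h i _ (small i D)).choose
  let D : ι → Finset G := wo.wf.fix step
  have hD : ∀ i, D i = step i (fun j _ => D j) := fun i => wo.wf.fix_eq step i
  have hs : ∀ i, P i (D i) ∧ Disjoint (D i : Set G) (⋃ j : {j // r j i}, (D j.1 : Set G)) :=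
    fun i => by
      rw [hD i]
      exact (h i _ (small i fun j _ => D j)).choose_spec
  have hd : ∀ i j, r j i → Disjoint (D i : Set G) (D j) := fun i j hj =>
    (hs i).2.mono_right (subset_iUnion (fun j : {j // r j i} => (D j.1 : Set G)) ⟨j, hj⟩)
  refine ⟨D, fun i => (hs i).1, fun i j hij => ?_⟩
  rcases trichotomous_of r i j with h1 | h1 | h1
  · exact (hd j i h1).symm
  · exact absurd h1 hij
  · exact hd i j h1

variable {G : Type*} [TopologicalSpace G] [DiscreteTopology G]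

lemma E_add (f g : E G) (t : G) : (f + g) t = f t + g t := rfl
lemma E_sub (f g : E G) (t : G) : (f - g) t = f t - g t := rfl
lemma E_smul (c : ℝ) (g : E G) (t : G) : (c • g) t = c * g t := rfl
lemma E_one (t : G) : (1 : E G) t = 1 := rfl

lemma E_sum {ι : Type*} (s : Finset ι) (f : ι → E G) (t : G) :
    (∑ i ∈ s, f i) t = ∑ i ∈ s, f i t := map_sum (evalCLM ℝ t) f s

lemma jordan (Θ : W G) : ∃ Θ₁ Θ₂ : W G, Pos Θ₁ ∧ Pos Θ₂ ∧ Θ = Θ₁ - Θ₂ := by
  have hn := nm_nonneg Θ
  obtain ⟨φ, h, -⟩ := hb_inf (X := E G) (fun f => {r | ∃ g : E G, (∀ t, 0 ≤ g t) ∧ ∃ c : ℝ, 0 ≤ c ∧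
      (∀ t, f t + g t ≤ c) ∧ r = nm Θ * c - Θ g})
    (fun f => ⟨_, 0, fun _ => le_rfl, ‖f‖, norm_nonneg _,
      fun t => by simpa using (le_abs_self _).trans (abs_le_norm f t), rfl⟩)
    (fun f => ⟨-(nm Θ * ‖f‖), by
      rintro _ ⟨g, hg, c, hc, hfg, rfl⟩
      have h1 : ‖g‖ ≤ c + ‖f‖ := norm_le_of (by positivity) fun t => by
        rw [abs_of_nonneg (hg t)]
        linarith [hfg t, neg_abs_le (f t), abs_le_norm f t]
      have h2 := (le_abs_self _).trans (abs_ap_le Θ g)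
      nlinarith [mul_le_mul_of_nonneg_left h1 hn]⟩)
    (by
      rintro f f' _ ⟨g, hg, c, hc, hfg, rfl⟩ _ ⟨g', hg', c', hc', hfg', rfl⟩
      refine ⟨g + g', fun t => add_nonneg (hg t) (hg' t), c + c', add_nonneg hc hc', fun t => ?_, ?_⟩
      · simp only [E_add]
        linarith [hfg t, hfg' t]
      · rw [map_add]; ring)
    (by
      rintro a ha f _ ⟨g, hg, c, hc, hfg, rfl⟩
      refine ⟨a • g, fun t => mul_nonneg ha.le (hg t), a * c, mul_nonneg ha.le hc, fun t => ?_, ?_⟩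
      · simp only [E_smul]
        nlinarith [hfg t]
      · rw [map_smul, smul_eq_mul]; ring) 0
  have h1 : ∀ f : E G, φ f ≤ nm Θ * ‖f‖ := fun f => by
    simpa using h f _ ⟨0, fun _ => le_rfl, ‖f‖, norm_nonneg _,
      fun t => by simpa using (le_abs_self _).trans (abs_le_norm f t), rfl⟩
  have h2 : ∀ f : E G, |φ f| ≤ nm Θ * ‖f‖ := fun f => by
    have := h1 (-f)
    rw [map_neg, norm_neg] at this
    exact abs_le.2 ⟨by linarith, h1 f⟩
  refine ⟨mkW φ _ h2, mkW φ _ h2 - Θ, fun f hf => ?_, fun f hf => ?_, by simp⟩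
  · have := h (-f) _ ⟨0, fun _ => le_rfl, 0, le_rfl, fun t => by simpa using hf t, rfl⟩
    simpa using this
  · have := h (-f) _ ⟨f, hf, 0, le_rfl, fun t => by simp, rfl⟩
    simpa using this

lemma minorant {y y' : W G} (hy : Pos y) (hy' : Pos y') {h : E G} (hh : ∀ t, 0 ≤ h t) :
    ∃ w : W G, Pos w ∧ Pos (y - w) ∧ Pos (y' - w) ∧ ∀ η : ℝ, 0 < η → ∃ f : E G,
      (∀ t, 0 ≤ f t) ∧ (∀ t, f t ≤ h t) ∧ y (h - f) + y' f < w h + η := by
  let R : E G → Set ℝ := fun f => {r | ∃ f₁ f₂ : E G, (∀ t, 0 ≤ f₁ t) ∧ (∀ t, 0 ≤ f₂ t) ∧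
      (∀ t, f t ≤ f₁ t + f₂ t) ∧ r = y f₁ + y' f₂}
  have hmem : ∀ f : E G, y (‖f‖ • (1 : E G)) + y' 0 ∈ R f := fun f =>
    ⟨_, 0, fun t => by simp, fun _ => le_rfl,
      fun t => by simpa using (le_abs_self _).trans (abs_le_norm f t), rfl⟩
  obtain ⟨φ, hφ, hφ0⟩ := hb_inf R (fun f => ⟨_, hmem f⟩)
    (fun f => ⟨0, by
      rintro _ ⟨f₁, f₂, h1, h2, -, rfl⟩
      exact add_nonneg (hy _ h1) (hy' _ h2)⟩)
    (by
      rintro f f' _ ⟨f₁, f₂, h1, h2, h3, rfl⟩ _ ⟨g₁, g₂, k1, k2, k3, rfl⟩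
      refine ⟨f₁ + g₁, f₂ + g₂, fun t => add_nonneg (h1 t) (k1 t),
        fun t => add_nonneg (h2 t) (k2 t), fun t => ?_, ?_⟩
      · simp only [E_add]
        linarith [h3 t, k3 t]
      · rw [map_add, map_add]; ring)
    (by
      rintro a ha f _ ⟨f₁, f₂, h1, h2, h3, rfl⟩
      refine ⟨a • f₁, a • f₂, fun t => mul_nonneg ha.le (h1 t), fun t => mul_nonneg ha.le (h2 t),
        fun t => ?_, ?_⟩
      · simp only [E_smul]
        nlinarith [h3 t]
      · rw [map_smul, map_smul, smul_eq_mul, smul_eq_mul]; ring) h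
  have h1 : ∀ f : E G, φ f ≤ y 1 * ‖f‖ := fun f => by
    have := hφ f _ (hmem f)
    rw [map_smul, map_zero, smul_eq_mul] at this
    linarith
  have h2 : ∀ f : E G, |φ f| ≤ y 1 * ‖f‖ := fun f => by
    have := h1 (-f)
    rw [map_neg, norm_neg] at this
    exact abs_le.2 ⟨by linarith, h1 f⟩
  refine ⟨mkW φ _ h2, fun f hf => ?_, fun f hf => ?_, fun f hf => ?_, fun η hη => ?_⟩
  · have := hφ (-f) _ ⟨0, 0, fun _ => le_rfl, fun _ => le_rfl, fun t => by simpa using hf t, rfl⟩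
    simpa using this
  · have := hφ f _ ⟨f, 0, hf, fun _ => le_rfl, fun t => by simp, rfl⟩
    simpa using this
  · have := hφ f _ ⟨0, f, fun _ => le_rfl, hf, fun t => by simp, rfl⟩
    simpa using this
  · obtain ⟨_, ⟨f₁, f₂, k1, k2, k3, rfl⟩, k4⟩ := exists_lt_of_csInf_lt ⟨_, hmem h⟩
      (show sInf (R h) < sInf (R h) + η by linarith)
    let f : E G := mkE (fun t => min (f₂ t) (h t)) ‖h‖ fun t => by
      rw [abs_of_nonneg (le_min (k2 t) (hh t))]
      exact (min_le_right _ _).trans ((le_abs_self _).trans (abs_le_norm h t))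
    refine ⟨f, fun t => le_min (k2 t) (hh t), fun t => min_le_right _ _, ?_⟩
    have a1 := hy.mono (f := h - f) (g := f₁) fun t => by
      simp only [E_sub, f, mkE_apply]
      rcases min_cases (f₂ t) (h t) with ⟨a, -⟩ | ⟨a, -⟩ <;> rw [a] <;> linarith [k1 t, k3 t]
    have a2 := hy'.mono (f := f) (g := f₂) fun t => min_le_left _ _
    rw [mkW_ap, hφ0]
    linarith

/-- finitely supported measures as functionals -/
noncomputable def fs (b : G →₀ ℝ) : W G := b.sum fun t c => c • ev t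

/-- the `ℓ¹` norm -/
noncomputable def l1 (b : G →₀ ℝ) : ℝ := ∑ t ∈ b.support, |b t|

lemma fs_ap (b : G →₀ ℝ) (f : E G) : fs b f = ∑ t ∈ b.support, b t * f t := by
  simp [fs, Finsupp.sum, sum_ap]

lemma nm_fs_le (b : G →₀ ℝ) : nm (fs b) ≤ l1 b := by
  refine nm_le (Finset.sum_nonneg fun _ _ => abs_nonneg _) fun f => ?_
  rw [fs_ap, l1, Finset.sum_mul]
  refine (Finset.abs_sum_le_sum_abs _ _).trans (Finset.sum_le_sum fun t _ => ?_)
  rw [abs_mul]
  exact mul_le_mul_of_nonneg_left (abs_le_norm f t) (abs_nonneg _)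

lemma l1_eq (b : G →₀ ℝ) {s : Finset G} (hs : b.support ⊆ s) : l1 b = ∑ t ∈ s, |b t| :=
  Finset.sum_subset hs fun t _ ht => by simp [Finsupp.notMem_support_iff.1 ht]

lemma approx {X : Type*} [NormedAddCommGroup X] [NormedSpace ℝ X] (ν : W G) (S : Set G)
    (hS : ∀ f : E G, (∀ t ∉ S, f t = 0) → ν f = 0) (Ξ : G → X) {M : ℝ} (hM : ∀ t, ‖Ξ t‖ ≤ M)
    (ξ : X) {η : ℝ} (hη : 0 < η)
    (h : ∀ ℓ : X →L[ℝ] ℝ, ‖ℓ‖ ≤ 1 → ∀ g : E G, (∀ t, g t = ℓ (Ξ t)) → ν g < ℓ ξ + η) :
    ∃ b : G →₀ ℝ, (∀ t ∈ b.support, t ∉ S) ∧ l1 b ≤ nm ν ∧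
      ‖Finsupp.linearCombination ℝ Ξ b - ξ‖ < η := by
  classical
  have hn := nm_nonneg ν
  let K₀ : Set (G →₀ ℝ) := {b | (∀ t ∈ b.support, t ∉ S) ∧ l1 b ≤ nm ν}
  have hK₀ : Convex ℝ K₀ := by
    intro a ha b hb α β hα hβ hαβ
    have hs : (α • a + β • b).support ⊆ a.support ∪ b.support :=
      Finsupp.support_add.trans (Finset.union_subset_union Finsupp.support_smul Finsupp.support_smul)
    refine ⟨fun t ht => ?_, ?_⟩
    · rcases Finset.mem_union.1 (hs ht) with h1 | h1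
      exacts [ha.1 t h1, hb.1 t h1]
    · have e1 := ha.2
      have e2 := hb.2
      rw [l1_eq a (Finset.subset_union_left (s₂ := b.support))] at e1
      rw [l1_eq b (Finset.subset_union_right (s₁ := a.support))] at e2
      rw [l1_eq _ hs]
      calc ∑ t ∈ a.support ∪ b.support, |(α • a + β • b) t|
          ≤ ∑ t ∈ a.support ∪ b.support, (α * |a t| + β * |b t|) :=
            Finset.sum_le_sum fun t _ => by
              simp only [Finsupp.add_apply, Finsupp.smul_apply, smul_eq_mul]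
              refine (abs_add_le _ _).trans (le_of_eq ?_)
              rw [abs_mul, abs_mul, abs_of_nonneg hα, abs_of_nonneg hβ]
        _ ≤ α * nm ν + β * nm ν := by
            rw [Finset.sum_add_distrib, ← Finset.mul_sum, ← Finset.mul_sum]
            gcongr
        _ = nm ν := by rw [← add_mul, hαβ, one_mul]
  obtain ⟨_, ⟨b, hb, rfl⟩, h2⟩ := sep_ball (hK₀.linear_image (Finsupp.linearCombination ℝ Ξ)) ξ hη
    (fun ℓ hℓ => by
      by_contra hc
      push Not at hc
      have hb : ∀ t, |ℓ (Ξ t)| ≤ M := fun t =>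
        (ℓ.le_opNorm _).trans ((mul_le_of_le_one_left (norm_nonneg _) hℓ).trans (hM t))
      have h0 : ℓ ξ + η ≤ 0 := by
        simpa using hc _ ⟨0, ⟨by simp, by simpa [l1] using hn⟩, rfl⟩
      have h1 : ∀ t ∉ S, ∀ c : ℝ, |c| ≤ nm ν → ℓ ξ + η ≤ c * ℓ (Ξ t) := fun t ht c hc' => by
        have := hc _ ⟨Finsupp.single t c, ⟨fun r hr => by
          rwa [Finset.mem_singleton.1 (Finsupp.support_single_subset hr)], by
          rw [l1_eq _ Finsupp.support_single_subset]; simpa using hc'⟩, rfl⟩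
        simpa using this
      let g : E G := mkE (fun t => ℓ (Ξ t)) M hb
      let g' : E G := mkE (fun t => if t ∈ S then 0 else ℓ (Ξ t)) M fun t => by
        split_ifs
        · simpa using (abs_nonneg _).trans (hb t)
        · exact hb t
      have e1 : ν g = ν g' := by
        have := hS (g - g') fun t ht => by simp [g, g', ht]
        rw [map_sub] at this
        linarith
      have e2 : ‖nm ν • g'‖ ≤ -(ℓ ξ + η) := norm_le_of (by linarith) fun t => by
        by_cases ht : t ∈ S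
        · simp only [E_smul, g', mkE_apply, if_pos ht, mul_zero, abs_zero]
          linarith
        · have a1 := h1 t ht (nm ν) (abs_of_nonneg hn).le
          have a2 := h1 t ht (-nm ν) (by rw [abs_neg, abs_of_nonneg hn])
          simp only [E_smul, g', mkE_apply, if_neg ht]
          rw [abs_le]
          constructor <;> linarith
      rw [norm_smul, Real.norm_of_nonneg hn] at e2
      have e3 := h ℓ hℓ g fun _ => rfl
      have e4 := abs_ap_le ν g'
      linarith [neg_abs_le (ν g')])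
  exact ⟨b, hb.1, hb.2, h2⟩

lemma approx_fin {ι : Type*} [Fintype ι] (ν : W G) (S : Set G)
    (hS : ∀ f : E G, (∀ t ∉ S, f t = 0) → ν f = 0) (g : ι → E G) {η : ℝ} (hη : 0 < η) :
    ∃ b : G →₀ ℝ, (∀ t ∈ b.support, t ∉ S) ∧ l1 b ≤ nm ν ∧ ∀ i, |fs b (g i) - ν (g i)| < η := by
  classical
  obtain ⟨b, h1, h2, h3⟩ := approx ν S hS (fun t i => g i t) (M := ‖g‖)
    (fun t => (pi_norm_le_iff_of_nonneg (norm_nonneg _)).2 fun i =>
      (abs_le_norm _ _).trans (norm_le_pi_norm g i)) (fun i => ν (g i)) hη (fun ℓ _ f hf => by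
      have e : f = ∑ i, ℓ (fun j => if i = j then 1 else 0) • g i := by
        ext t
        rw [hf, E_sum]
        refine (ℓ.toLinearMap.pi_apply_eq_sum_univ _).trans (Finset.sum_congr rfl fun i _ => ?_)
        rw [E_smul, smul_eq_mul, mul_comm]
        rfl
      have e2 : ℓ (fun i => ν (g i)) = ν f := by
        rw [e, map_sum]
        refine (ℓ.toLinearMap.pi_apply_eq_sum_univ _).trans (Finset.sum_congr rfl fun i _ => ?_)
        rw [map_smul, smul_eq_mul, smul_eq_mul, mul_comm]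
        rfl
      linarith)
  refine ⟨b, h1, h2, fun i => ?_⟩
  have := (norm_le_pi_norm _ i).trans_lt h3
  rw [fs_ap]
  simpa [Finsupp.linearCombination_apply, Finsupp.sum] using this

end Pool.Agent.H283Z.Core
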