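import Pool.Agent.H283Z.Core2

set_option autoImplicit false
set_option linter.unusedSectionVars false

namespace Pool.Agent.H283Z.Core

open BoundedContinuousFunction Filter Topology Set Cardinal

universe u

variable {G : Type u} [TopologicalSpace G] [DiscreteTopology G] [Group G] (ω : Weight G)

def Unif (Ψ : W G) : Prop := ∀ S : Set G, #S < #G → ∀ f : E G, (∀ t ∉ S, f t = 0) → Ψ f = 0

structure IsCone (L : Set (W G)) : Prop where
  pos : ∀ x ∈ L, Pos x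
  unif : ∀ x ∈ L, Unif x
  closed : IsClosed L
  add : ∀ x ∈ L, ∀ y ∈ L, x + y ∈ L
  smul : ∀ c : ℝ, 0 ≤ c → ∀ x ∈ L, c • x ∈ L
  lm : ∀ s, ∀ x ∈ L, lm ω s x ∈ L
  ne : ∃ x ∈ L, x 1 = 1

structure IsMin (L : Set (W G)) : Prop extends IsCone ω L where
  min : ∀ L' ⊆ L, IsCone ω L' → L ⊆ L'

def bi (O : Set (W G)) : Set (W G) := {x | ∀ g : E G, (∀ b ∈ O, 0 ≤ b g) → 0 ≤ x g}

lemma isClosed_bi (O : Set (W G)) : IsClosed (bi O) := by
  have : bi O = ⋂ g : E G, ⋂ _ : (∀ b ∈ O, 0 ≤ b g), {x : W G | 0 ≤ x g} := by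
    ext x
    simp [bi]
  rw [this]
  exact isClosed_iInter fun f => isClosed_iInter fun _ => isClosed_le continuous_const (cont_ap f)

lemma bi_add {O : Set (W G)} {x y : W G} (hx : x ∈ bi O) (hy : y ∈ bi O) : x + y ∈ bi O :=
  fun g hg => add_nonneg (hx g hg) (hy g hg)

lemma bi_smul {O : Set (W G)} {x : W G} {c : ℝ} (hc : 0 ≤ c) (hx : x ∈ bi O) : c • x ∈ bi O :=
  fun g hg => mul_nonneg hc (hx g hg)

variable {ω}

lemma IsCone.zero_mem {L : Set (W G)} (hL : IsCone ω L) : (0 : W G) ∈ L := by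
  obtain ⟨x, hx, -⟩ := hL.ne
  simpa using hL.smul 0 le_rfl x hx

lemma IsCone.convex {L : Set (W G)} (hL : IsCone ω L) : Convex ℝ L :=
  fun x hx y hy a b ha hb _ => hL.add _ (hL.smul a ha x hx) _ (hL.smul b hb y hy)

lemma IsCone.sum_mem {L : Set (W G)} (hL : IsCone ω L) {ι : Type*} (s : Finset ι) (x : ι → W G)
    (h : ∀ i ∈ s, x i ∈ L) : ∑ i ∈ s, x i ∈ L :=
  Finset.sum_induction x (· ∈ L) (fun a b ha hb => hL.add a ha b hb) hL.zero_mem h

lemma IsCone.compact {L : Set (W G)} (hL : IsCone ω L) : IsCompact {x : W G | x ∈ L ∧ x 1 = 1} :=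
  isCompact_Q hL.closed hL.pos

lemma IsCone.bi_subset {L : Set (W G)} (hL : IsCone ω L) {O : Set (W G)} (hO : O ⊆ L) :
    bi O ⊆ L := by
  intro x hx
  by_contra hc
  obtain ⟨g, u, h1, h2⟩ := sepW hL.closed hL.convex hc
  have h0 : u < 0 := by simpa using h2 0 hL.zero_mem
  have h3 : ∀ b ∈ L, 0 ≤ b g := fun b hb => by
    by_contra h4
    push Not at h4
    have h5 := h2 _ (hL.smul (u / b g) (div_nonneg_of_nonpos h0.le h4.le) b hb)
    rw [smul_ap, div_mul_cancel₀ _ h4.ne] at h5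
    exact lt_irrefl _ h5
  linarith [hx g fun b hb => h3 b (hO hb)]

lemma IsCone.mul_mem {L : Set (W G)} (hL : IsCone ω L) {Θ y : W G} (hΘ : Pos Θ) (hy : y ∈ L) :
    mul ω Θ y ∈ L :=
  hL.bi_subset subset_rfl fun _ hg => hΘ _ fun s =>
    div_nonneg (hg _ (hL.lm s y hy)) (ω.pos s).le

lemma IsCone.normalize {L : Set (W G)} (hL : IsCone ω L) {x : W G} (hx : x ∈ L) (h0 : x ≠ 0) :
    0 < x 1 ∧ (x 1)⁻¹ • x ∈ L ∧ ((x 1)⁻¹ • x) 1 = 1 := by
  have h1 : 0 < x 1 := lt_of_le_of_ne (hL.pos x hx).one fun h => h0 ((hL.pos x hx).eq_zero h.symm)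
  exact ⟨h1, hL.smul _ (inv_pos.2 h1).le x hx, inv_mul_cancel₀ h1.ne'⟩

lemma IsMin.subset {L : Set (W G)} (hL : IsMin ω L) {L' : Set (W G)} (h : L' ⊆ L)
    (h1 : IsClosed L') (h2 : ∀ x ∈ L', ∀ y ∈ L', x + y ∈ L')
    (h3 : ∀ c : ℝ, 0 ≤ c → ∀ x ∈ L', c • x ∈ L') (h4 : ∀ s, ∀ x ∈ L', Core.lm ω s x ∈ L')
    (h5 : ∃ x ∈ L', x 1 = 1) : L ⊆ L' :=
  hL.min L' h ⟨fun x hx => hL.pos x (h hx), fun x hx => hL.unif x (h hx), h1, h2, h3, h4, h5⟩

lemma small_preimage {S : Set G} (hS : #S < #G) (s : G) : #{t | s * t ∈ S} < #G :=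
  (mk_preimage_of_injective (fun t => s * t) S (mul_right_injective s)).trans_lt hS

variable (ω)

lemma isCone_top [Infinite G] : IsCone ω {x : W G | Pos x ∧ Unif x} where
  pos := fun _ hx => hx.1
  unif := fun _ hx => hx.2
  closed := by
    refine isClosed_pos.inter ?_
    have : {x : W G | Unif x} = ⋂ S : Set G, ⋂ _ : #S < #G, ⋂ f : E G,
        ⋂ _ : (∀ t ∉ S, f t = 0), {x : W G | x f = 0} := by
      ext x
      simp [Unif]
    show IsClosed {x : W G | Unif x}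
    rw [this]
    exact isClosed_iInter fun _ => isClosed_iInter fun _ => isClosed_iInter fun f =>
      isClosed_iInter fun _ => isClosed_eq (cont_ap f) continuous_const
  add := fun x hx y hy => ⟨hx.1.add hy.1, fun S hS f hf => by
    rw [add_ap, hx.2 S hS f hf, hy.2 S hS f hf, add_zero]⟩
  smul := fun c hc x hx => ⟨hx.1.smul hc, fun S hS f hf => by
    rw [smul_ap, hx.2 S hS f hf, mul_zero]⟩
  lm := fun s x hx => ⟨hx.1.lm ω s, fun S hS f hf =>
    hx.2 _ (small_preimage hS s) (sh ω s f) fun t ht => by rw [sh_ap, hf _ ht, mul_zero]⟩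
  ne := by
    let F : Filter G :=
      { sets := {A | #(Aᶜ : Set G) < #G}
        univ_sets := by simpa using (aleph0_pos.trans_le (aleph0_le_mk G))
        sets_of_superset := fun hA hAB =>
          (mk_le_mk_of_subset (compl_subset_compl.2 hAB)).trans_lt hA
        inter_sets := fun {A B} hA hB => by
          show #((A ∩ B)ᶜ : Set G) < #G
          rw [compl_inter]
          exact (mk_union_le _ _).trans_lt (add_lt_of_lt (aleph0_le_mk G) hA hB) }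
    have : F.NeBot := by
      refine ⟨fun h => ?_⟩
      have h1 : (∅ : Set G) ∈ F := by rw [h]; exact mem_bot
      have h2 : #((∅ : Set G)ᶜ : Set G) < #G := h1
      simp at h2
    obtain ⟨Ψ, -, hΨ⟩ := exists_lim (Ultrafilter.of F) (ev (G := G)) (C := 1)
      (fun t => (pos_ev t).nm_le)
    refine ⟨Ψ, ⟨fun f hf => ge_of_tendsto' (hΨ f) hf, fun S hS f hf => ?_⟩,
      tendsto_nhds_unique (hΨ 1) tendsto_const_nhds⟩
    refine tendsto_nhds_unique (hΨ f) (tendsto_const_nhds.congr' ?_)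
    have : Sᶜ ∈ F := by
      show #(Sᶜᶜ : Set G) < #G
      rwa [compl_compl]
    filter_upwards [Ultrafilter.of_le F this] with t ht
    exact (hf t ht).symm

lemma exists_min [Infinite G] : ∃ L : Set (W G), IsMin ω L := by
  obtain ⟨L, -, hL⟩ := zorn_superset_nonempty {L : Set (W G) | IsCone ω L} (fun c hc hch hne => by
    obtain ⟨L₀, hL₀⟩ := hne
    refine ⟨⋂₀ c, ⟨fun x hx => (hc hL₀).pos x (hx L₀ hL₀), fun x hx => (hc hL₀).unif x (hx L₀ hL₀),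
      isClosed_sInter fun L hL => (hc hL).closed,
      fun x hx y hy L hL => (hc hL).add x (hx L hL) y (hy L hL),
      fun a ha x hx L hL => (hc hL).smul a ha x (hx L hL),
      fun s x hx L hL => (hc hL).lm s x (hx L hL), ?_⟩, fun L hL => sInter_subset_of_mem hL⟩
    have : Nonempty c := ⟨⟨L₀, hL₀⟩⟩
    obtain ⟨x, hx⟩ := IsCompact.nonempty_iInter_of_directed_nonempty_isCompact_isClosed
      (fun L : c => {x : W G | x ∈ L.1 ∧ x 1 = 1})
      (fun A B => by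
        rcases hch.total A.2 B.2 with h | h
        · exact ⟨A, subset_rfl, fun x hx => ⟨h hx.1, hx.2⟩⟩
        · exact ⟨B, fun x hx => ⟨h hx.1, hx.2⟩, subset_rfl⟩)
      (fun L => (hc L.2).ne) (fun L => (hc L.2).compact) (fun L => (hc L.2).compact.isClosed)
    rw [mem_iInter] at hx
    exact ⟨x, fun L hL => (hx ⟨L, hL⟩).1, (hx ⟨L₀, hL₀⟩).2⟩) _ (isCone_top ω)
  exact ⟨L, hL.prop, fun L' h hL' => hL.le_of_le hL' h⟩

variable {ω}

lemma IsCone.grow {L : Set (W G)} (hL : IsCone ω L) (D : W G →ₗ[ℝ] W G) (hc : Continuous D)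
    (hD : ∀ x ∈ L, D x ∈ L) (hne : ∀ x ∈ L, x 1 = 1 → D x ≠ 0) :
    ∃ δ : ℝ, 0 < δ ∧ ∃ z ∈ L, z 1 = 1 ∧ D z - δ • z ∈ L := by
  obtain ⟨x₀, hx₀, hm⟩ := hL.compact.exists_isMinOn hL.ne ((cont_ap 1).comp hc).continuousOn
  set δ := D x₀ 1 with hδ
  have hδ0 : 0 < δ := (hL.normalize (hD _ hx₀.1) (hne _ hx₀.1 hx₀.2)).1
  let D' : W G →ₗ[ℝ] W G := δ⁻¹ • D
  have hD' : ∀ x ∈ L, D' x ∈ L := fun x hx => hL.smul _ (inv_pos.2 hδ0).le _ (hD x hx)
  have hc' : Continuous D' := hc.const_smul δ⁻¹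
  have hge : ∀ x ∈ L, x 1 ≤ D' x 1 := fun x hx => by
    by_cases h0 : x = 0
    · simp [h0]
    · obtain ⟨h1, h2, h3⟩ := hL.normalize hx h0
      have h4 : δ ≤ D ((x 1)⁻¹ • x) 1 := hm ⟨h2, h3⟩
      rw [map_smul, smul_ap, le_inv_mul_iff₀ h1] at h4
      show x 1 ≤ δ⁻¹ * D x 1
      rw [le_inv_mul_iff₀ hδ0]
      linarith
  let u : ℕ → W G := fun n => D'^[n] x₀
  have hu : ∀ n, u n ∈ L ∧ 1 ≤ u n 1 := fun n => by
    induction n with
    | zero => exact ⟨hx₀.1, hx₀.2.ge⟩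
    | succ n ih =>
      simp only [u, Function.iterate_succ_apply']
      exact ⟨hD' _ ih.1, ih.2.trans (hge _ ih.1)⟩
  have hus : ∀ n, D' (u n) = u (n + 1) := fun n => by simp only [u, Function.iterate_succ_apply']
  let K : Set (W G × ℝ) := ({x : W G | x ∈ L ∧ x 1 = 1} ×ˢ Icc 0 1) ∩
    {p | D' p.1 - p.1 + p.2 • x₀ ∈ L}
  have hK : IsCompact K := (hL.compact.prod isCompact_Icc).inter_right
    (hL.closed.preimage (((hc'.comp continuous_fst).sub continuous_fst).add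
      (continuous_snd.smul continuous_const)))
  have hN : ∀ N : ℕ, ∃ p ∈ K, p.2 ≤ 1 / ((N : ℝ) + 1) := fun N => by
    let X := ∑ n ∈ Finset.range (N + 1), u n
    have hX : X ∈ L := hL.sum_mem _ _ fun n _ => (hu n).1
    have hX1 : (N : ℝ) + 1 ≤ X 1 := by
      rw [sum_ap]
      simpa using Finset.card_nsmul_le_sum (Finset.range (N + 1)) (fun n => u n 1) 1
        fun n _ => (hu n).2
    have hp : 0 < (N : ℝ) + 1 := by positivity
    have hX0 : 0 < X 1 := hp.trans_le hX1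
    have ht : D' X - X + x₀ = u (N + 1) := by
      have := Finset.sum_range_sub u (N + 1)
      rw [Finset.sum_sub_distrib] at this
      simp only [X, map_sum, hus, this]
      exact sub_add_cancel _ _
    refine ⟨((X 1)⁻¹ • X, (X 1)⁻¹), ⟨⟨⟨hL.smul _ (inv_pos.2 hX0).le _ hX, inv_mul_cancel₀ hX0.ne'⟩,
      (inv_pos.2 hX0).le, inv_le_one_of_one_le₀ (by linarith [N.cast_nonneg (α := ℝ)])⟩, ?_⟩, ?_⟩
    · show D' ((X 1)⁻¹ • X) - (X 1)⁻¹ • X + (X 1)⁻¹ • x₀ ∈ L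
      rw [map_smul, ← smul_sub, ← smul_add, ht]
      exact hL.smul _ (inv_pos.2 hX0).le _ (hu _).1
    · rw [one_div]
      exact inv_anti₀ hp hX1
  obtain ⟨p, hp, hpm⟩ := hK.exists_isMinOn (by obtain ⟨p, hp, -⟩ := hN 0; exact ⟨p, hp⟩)
    continuous_snd.continuousOn
  have hp0 : p.2 = 0 := by
    refine le_antisymm (ge_of_tendsto' tendsto_one_div_add_atTop_nhds_zero_nat fun N => ?_) hp.1.2.1
    obtain ⟨q, hq, hq'⟩ := hN N
    exact (hpm hq).trans hq'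
  refine ⟨δ, hδ0, p.1, hp.1.1.1, hp.1.1.2, ?_⟩
  have h2 : D' p.1 - p.1 + p.2 • x₀ ∈ L := hp.2
  rw [hp0, zero_smul, add_zero] at h2
  have h3 := hL.smul δ hδ0.le _ h2
  rwa [smul_sub, show D' p.1 = δ⁻¹ • D p.1 from rfl, smul_inv_smul₀ hδ0.ne'] at h3

lemma IsMin.eigen {L : Set (W G)} (hL : IsMin ω L) {y : W G} (hy : y ∈ L) :
    ∃ t : ℝ, 0 ≤ t ∧ ∀ x ∈ L, mul ω x y = t • x := by
  have hy1 := (hL.pos y hy).one
  have hb : ∀ x ∈ L, x 1 = 1 → ∀ τ : ℝ, mul ω x y - τ • x ∈ L → τ ≤ y 1 := fun x hx hx1 τ h => by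
    have h1 := (hL.pos _ h).one
    have h2 := (le_abs_self _).trans ((hL.pos x hx).abs_le (T ω y 1))
    have h3 := (norm_T_le ω y 1).trans (mul_le_mul (hL.pos y hy).nm_le norm_one_le
      (norm_nonneg _) hy1)
    rw [sub_ap, smul_ap, mul_ap, hx1] at h1
    rw [hx1] at h2
    linarith
  let K : Set (W G × ℝ) := ({x : W G | x ∈ L ∧ x 1 = 1} ×ˢ Icc 0 (y 1)) ∩
    {p | mul ω p.1 y - p.2 • p.1 ∈ L}
  have hK : IsCompact K := (hL.compact.prod isCompact_Icc).inter_right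
    (hL.closed.preimage (((cont_mul ω y).comp continuous_fst).sub
      (continuous_snd.smul continuous_fst)))
  obtain ⟨x₀, hx₀, hx₀1⟩ := hL.ne
  obtain ⟨p, hp, hpm⟩ := hK.exists_isMaxOn ⟨(x₀, 0), ⟨⟨hx₀, hx₀1⟩, le_rfl, hy1⟩, by
    simpa using hL.mul_mem (hL.pos _ hx₀) hy⟩ continuous_snd.continuousOn
  let D : W G →ₗ[ℝ] W G :=
    { toFun := fun x => mul ω x y - p.2 • x
      map_add' := fun a b => by rw [add_mul', smul_add]; abel
      map_smul' := fun c a => by rw [smul_mul', smul_comm, smul_sub]; rfl }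
  have hc : Continuous D := (cont_mul ω y).sub (continuous_id.const_smul p.2)
  have hlm : ∀ s x, D (Core.lm ω s x) = Core.lm ω s (D x) := fun s x => by
    show mul ω (Core.lm ω s x) y - p.2 • Core.lm ω s x = Core.lm ω s (mul ω x y - p.2 • x)
    rw [lm_sub, lm_smul, lm_mul]
  have hD : ∀ x ∈ L, D x ∈ L := fun x hx =>
    (hL.subset (L' := {x | x ∈ L ∧ D x ∈ L}) (fun _ h => h.1)
      (hL.closed.inter (hL.closed.preimage hc))
      (fun a ha b hb => ⟨hL.add _ ha.1 _ hb.1, by rw [map_add]; exact hL.add _ ha.2 _ hb.2⟩)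
      (fun c hc a ha => ⟨hL.smul c hc _ ha.1, by rw [map_smul]; exact hL.smul c hc _ ha.2⟩)
      (fun s a ha => ⟨hL.lm s _ ha.1, by rw [hlm]; exact hL.lm s _ ha.2⟩)
      ⟨p.1, ⟨hp.1.1.1, hp.2⟩, hp.1.1.2⟩ hx).2
  refine ⟨p.2, hp.1.2.1, ?_⟩
  by_cases hz : ∃ x ∈ L, x 1 = 1 ∧ D x = 0
  · obtain ⟨x₁, h1, h2, h3⟩ := hz
    intro x hx
    exact sub_eq_zero.1 (hL.subset (L' := {x | x ∈ L ∧ D x = 0}) (fun _ h => h.1)
      (hL.closed.inter (isClosed_eq hc continuous_const))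
      (fun a ha b hb => ⟨hL.add _ ha.1 _ hb.1, by rw [map_add, ha.2, hb.2, add_zero]⟩)
      (fun c hc a ha => ⟨hL.smul c hc _ ha.1, by rw [map_smul, ha.2, smul_zero]⟩)
      (fun s a ha => ⟨hL.lm s _ ha.1, by rw [hlm, ha.2]; rfl⟩)
      ⟨x₁, ⟨h1, h3⟩, h2⟩ hx).2
  · push Not at hz
    obtain ⟨δ, hδ, z, hz1, hz2, hz3⟩ := hL.grow D hc hD hz
    have h4 : mul ω z y - (p.2 + δ) • z ∈ L := by
      rw [add_smul, ← sub_sub]
      exact hz3
    have h5 : p.2 + δ ≤ p.2 := hpm (show (z, p.2 + δ) ∈ K from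
      ⟨⟨⟨hz1, hz2⟩, add_nonneg hp.1.2.1 hδ.le, hb z hz1 hz2 _ h4⟩, h4⟩)
    linarith

end Pool.Agent.H283Z.Core
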